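import Pool.Agent.helper50.NPT.Spec3
import Pool.Agent.helper19.AN.FS

/-!
# Project NPT, row FS2: one-point data of a function field, with the true gaps (after helper19/AN/FS.lean)
-/

namespace NPT

open scoped Classical
open AN
open Pool.Agent.helper53.AU

noncomputable section

theorem FS2 (hFE : FE_stmt) (hFE0 : FE0_stmt) (hFC : FC_stmt) (hFD : FD_stmt) (hFB : FB_stmt)
    (hDJ0 : DJ0_stmt) : FS2_stmt := by
  intro p _ k F _ _ _ _ _ hF g hg P₀ ι hL
  obtain ⟨D, hD⟩ := QK1 k F hF
  obtain ⟨⟨C, hC⟩, _⟩ := hFE k F hF g hg P₀ D hD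
  obtain ⟨u, hu1, hu2, hu3⟩ := hFB k F hF P₀ ι hL D hD
  have hFDD := hFD k F hF P₀ D hD
  have hres := hFC p k F hF P₀ ι hL
  have hιinj : Function.Injective ι := ι.injective
  -- the linear maps
  let L1 : F →ₗ[k] LS k := FS_lin ι hL.const 1
  have hL1 : ∀ f, L1 f = ι f := fun f => one_mul _
  have hL1inj : Function.Injective L1 := by
    intro f g hfg
    rw [hL1, hL1] at hfg
    exact hιinj hfg
  have hu0 : u ≠ 0 := by
    rintro rfl
    exact hu2 (cf_zero _)
  let L2 : F →ₗ[k] LS k := FS_lin ι hL.const u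
  have hL2 : ∀ f, L2 f = u * ι f := fun f => rfl
  have hL2inj : Function.Injective L2 := by
    intro f g hfg
    rw [hL2, hL2] at hfg
    exact hιinj (mul_left_cancel₀ hu0 hfg)
  let V : Submodule k (LS k) := Submodule.map L1 (Subalgebra.toSubmodule (Reg P₀))
  have hV : ∀ x, x ∈ V ↔ ∃ f ∈ Reg P₀, x = ι f := by
    intro x
    constructor
    · rintro ⟨f, hf, rfl⟩
      exact ⟨f, hf, hL1 f⟩
    · rintro ⟨f, hf, rfl⟩
      exact ⟨f, hf, hL1 f⟩
  have hpos : ∀ f ∈ Reg P₀, f ≠ 0 → P₀.ord f ≤ 0 := by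
    intro f hf hf0
    by_contra hc
    obtain ⟨c, hc'⟩ := aQV0 k F hF f (fun P => by
      by_cases hP : P = P₀
      · subst hP
        exact Or.inr (by omega)
      · exact hf P hP)
    have hc0 : c ≠ 0 := by
      rintro rfl
      exact hf0 (by rw [hc', map_zero])
    have := P₀.ord_const c hc0
    rw [← hc'] at this
    omega
  have hV1 : V ⊓ GE k (1 - ((0 : ℕ) : ℤ)) = ⊥ := by
    rw [eq_bot_iff]
    rintro x ⟨hx, hx2⟩
    obtain ⟨f, hf, rfl⟩ := (hV x).mp hx
    rw [Submodule.mem_bot]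
    by_contra hne
    have hf0 : f ≠ 0 := by
      rintro rfl
      exact hne (map_zero _)
    have h1 := ((FS_GE hL _ f).mp hx2).le hf0
    have h2 := hpos f hf hf0
    push_cast at h1
    omega
  have hV2 : ∀ m : ℕ, V ⊓ GE k (-(m : ℤ)) = Submodule.map L1 (regF P₀ (m : ℤ)) := by
    intro m
    ext x
    constructor
    · rintro ⟨hx, hx2⟩
      obtain ⟨f, hf, rfl⟩ := (hV x).mp hx
      exact ⟨f, ⟨hf, (FS_GE hL _ f).mp hx2⟩, hL1 f⟩
    · rintro ⟨f, ⟨hf1, hf2⟩, rfl⟩
      refine ⟨(hV _).mpr ⟨f, hf1, hL1 f⟩, ?_⟩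
      rw [hL1]
      exact (FS_GE hL _ f).mpr hf2
  obtain ⟨γ, a, hγ, _, haV, hcoef, hgap, hspan⟩ := hFE0 k V 0 g hV1 ⟨C, fun m hm => by
    rw [hV2 m, ← (Submodule.equivMapOfInjective L1 hL1inj (regF P₀ (m : ℤ))).finrank_eq]
    have := (hC m hm).1
    omega⟩
  have h1V : (1 : LS k) ∈ V := (hV _).mpr ⟨1, (Reg P₀).one_mem, (map_one _).symm⟩
  have hγpos : ∀ i, 0 < γ i := by
    intro i
    rcases Nat.eq_zero_or_pos (γ i) with h | h
    · exfalso
      have := hgap 0 ⟨i, h⟩ 1 h1V (by
        rw [Nat.cast_zero, neg_zero]; exact one_mem_PS)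
      rw [cf_one, if_pos (by simp)] at this
      exact one_ne_zero this
    · exact h
  have hcoef' : ∀ r r' : ℕ, ¬ Gp γ r → ¬ Gp γ r' →
      cf (a r) (-(r' : ℤ)) = if r = r' then 1 else 0 :=
    fun r r' hr hr' => hcoef r r' (Nat.zero_le _) (Nat.zero_le _) hr hr'
  have hzero : ∀ v ∈ V, (∀ r : ℕ, ¬ Gp γ r → cf v (-(r : ℤ)) = 0) → v = 0 := by
    intro v hv hr
    by_contra hne
    obtain ⟨f, hf, rfl⟩ := (hV v).mp hv
    have hf0 : f ≠ 0 := by
      rintro rfl
      exact hne (map_zero _)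
    have h2 := hpos f hf hf0
    obtain ⟨r, hr'⟩ : ∃ r : ℕ, P₀.ord f = -(r : ℤ) := ⟨(-P₀.ord f).toNat, by omega⟩
    have h3 := hL.ne f hf0
    rw [hr'] at h3
    by_cases hgr : Gp γ r
    · apply h3
      apply hgap r hgr _ hv
      rw [← hr']
      exact hL.mem f hf0
    · exact h3 (hr r hgr)
  have h0 : ¬ Gp γ 0 := by
    rintro ⟨i, hi⟩
    have := hγpos i
    omega
  have ha0 : a 0 = 1 := by
    have h1 := hzero (a 0 - 1) (Submodule.sub_mem _ (haV 0 le_rfl h0) h1V) (by
      intro r hr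
      rw [cf_sub, hcoef' 0 r h0 hr, cf_one]
      by_cases h : 0 = r
      · rw [if_pos h, if_pos (by omega), sub_self]
      · rw [if_neg h, if_neg (by omega), sub_self])
    exact sub_eq_zero.mp h1
  have hAV : AA γ a = V := by
    rw [hspan]
    unfold AA
    congr 1
    ext x
    constructor
    · rintro ⟨r, hr, rfl⟩
      exact ⟨r, Nat.zero_le _, hr, rfl⟩
    · rintro ⟨r, _, hr, rfl⟩
      exact ⟨r, hr, rfl⟩
  -- differentials
  have hOm : ∀ η ∈ OmA γ a, ∀ r, ¬ Gp γ r → res (a r * η) = 0 := by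
    intro η hη r hr
    obtain ⟨b, hb, hbr⟩ := (hV _).mp (haV r (Nat.zero_le _) hr)
    unfold OmA at hη
    induction hη using Submodule.span_induction with
    | mem y hy =>
      obtain ⟨f, hf, h, hh, rfl⟩ := hy
      rw [hAV, hV] at hf hh
      obtain ⟨f', hf', rfl⟩ := hf
      obtain ⟨h', hh', rfl⟩ := hh
      rw [hbr, ← mul_assoc, ← map_mul]
      exact hres _ ((Reg P₀).mul_mem hb hf') _ hh'
    | zero => rw [mul_zero]; exact res_zero
    | add y z _ _ hy hz => rw [mul_add, res_add, hy, hz, add_zero]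
    | smul c y _ hy => rw [← C_mul, mul_left_comm, C_mul, res_smul, hy, mul_zero]
  have hOm2 : ∀ w : F, (∀ P : Place k F, P ≠ P₀ → P.Ge (P.ord (D P.unif)) w) →
      u * ι w ∈ OmA γ a := by
    intro w hw
    have hw' := (hFDD w).mp hw
    clear hw
    induction hw' using Submodule.span_induction with
    | mem y hy =>
      obtain ⟨f, hf, h, hh, rfl⟩ := hy
      have e1 : u * ι (f * D h) = ι f * dd (ι h) := by
        rw [hu3, map_mul]
        ring
      rw [e1]
      refine Submodule.subset_span ⟨ι f, ?_, ι h, ?_, rfl⟩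
      · rw [hAV, hV]; exact ⟨f, hf, rfl⟩
      · rw [hAV, hV]; exact ⟨h, hh, rfl⟩
    | zero => rw [map_zero, mul_zero]; exact Submodule.zero_mem _
    | add y z _ _ hy hz => rw [map_add, mul_add]; exact Submodule.add_mem _ hy hz
    | smul c y _ hy =>
      have e1 : u * ι (c • y) = c • (u * ι y) := (L2.map_smul c y)
      rw [e1]
      exact Submodule.smul_mem _ _ hy
  obtain ⟨hz, hexp⟩ := hDJ0 k g γ a hγ hγpos ha0 hcoef'
  have hgen : ∀ n : ℤ, (n ≤ -2 ∨ ∃ i, n = (γ i : ℤ) - 1) → om γ a n ∈ OmA γ a := by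
    intro n hn
    obtain ⟨m, hmdef⟩ : ∃ m : ℕ, m = C + n.natAbs + 1 := ⟨_, rfl⟩
    let T : Finset (LS k) := (Finset.Icc (-(m : ℤ)) (-2)).image (om γ a) ∪
      Finset.univ.image (fun i => om γ a ((γ i : ℤ) - 1))
    let W : Submodule k (LS k) := Submodule.span k (T : Set (LS k))
    have hTcard : T.card ≤ (m - 1) + g := by
      refine (Finset.card_union_le _ _).trans (add_le_add ?_ ?_)
      · refine Finset.card_image_le.trans ?_
        rw [Int.card_Icc]
        omega
      · refine Finset.card_image_le.trans ?_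
        rw [Finset.card_univ, Fintype.card_fin]
    have hWfin : FiniteDimensional k W := FiniteDimensional.span_finset k T
    have hWrank : Module.finrank k W ≤ (m - 1) + g := (finrank_span_finset_le_card T).trans hTcard
    have hle : OmA γ a ⊓ GE k (-(m : ℤ)) ≤ W := by
      rintro η ⟨hη1, hη2⟩
      rw [hexp m η (hOm η hη1) hη2]
      refine Submodule.add_mem _ (Submodule.sum_mem _ fun j hj => ?_)
        (Submodule.sum_mem _ fun j _ => ?_)
      · refine Submodule.smul_mem _ _ (Submodule.subset_span ?_)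
        rw [Finset.mem_coe, Finset.mem_union]
        exact Or.inl (Finset.mem_image_of_mem _ hj)
      · refine Submodule.smul_mem _ _ (Submodule.subset_span ?_)
        rw [Finset.mem_coe, Finset.mem_union]
        exact Or.inr (Finset.mem_image_of_mem (fun i => om γ a ((γ i : ℤ) - 1))
          (Finset.mem_univ j))
    have hfin2 : FiniteDimensional k (OmA γ a ⊓ GE k (-(m : ℤ)) : Submodule k (LS k)) :=
      Submodule.finiteDimensional_of_le hle
    have hge : Submodule.map L2 (omF P₀ D (m : ℤ)) ≤ OmA γ a ⊓ GE k (-(m : ℤ)) := by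
      rintro _ ⟨w, ⟨hw1, hw2⟩, rfl⟩
      refine ⟨hOm2 w hw1, ?_⟩
      have e1 : L2 w ∈ GE k (-P₀.ord (D P₀.unif) + (P₀.ord (D P₀.unif) - m)) :=
        GE_mul hu1 ((FS_GE hL _ w).mpr hw2)
      exact GE_mono (by omega) e1
    have hrank2 : (m - 1) + g ≤ Module.finrank k
        (OmA γ a ⊓ GE k (-(m : ℤ)) : Submodule k (LS k)) := by
      have e1 := Submodule.finrank_mono hge
      rw [← (Submodule.equivMapOfInjective L2 hL2inj (omF P₀ D (m : ℤ))).finrank_eq] at e1
      have e2 := (hC m (by omega)).2.1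
      omega
    have heq := Submodule.eq_of_le_of_finrank_le hle (hWrank.trans hrank2)
    have hmemW : om γ a n ∈ W := by
      refine Submodule.subset_span ?_
      rw [Finset.mem_coe, Finset.mem_union]
      rcases hn with hn | ⟨i, rfl⟩
      · left
        refine Finset.mem_image_of_mem _ ?_
        rw [Finset.mem_Icc]
        omega
      · right
        exact Finset.mem_image_of_mem (fun i => om γ a ((γ i : ℤ) - 1)) (Finset.mem_univ i)
    rw [← heq] at hmemW
    exact hmemW.1
  refine ⟨γ, a, ?_, ?_, fun x => by rw [hAV, hV]⟩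
  swap
  · intro r hr
    obtain ⟨M, hM⟩ := exists_lb_nat (a r)
    have key : ∀ j : ℕ, j ≤ M - r → a r ∈ GE k (-((M - j : ℕ) : ℤ)) := by
      intro j
      induction j with
      | zero =>
        intro _ m hm
        exact hM m (by simpa using hm)
      | succ j ih =>
        intro hj
        have h1 := ih (by omega)
        have h2 : cf (a r) (-((M - j : ℕ) : ℤ)) = 0 := by
          by_cases hG : Gp γ (M - j)
          · exact hgap _ hG _ (haV r (Nat.zero_le _) hr) h1
          · rw [hcoef' r (M - j) hr hG, if_neg (by omega)]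
        intro m hm
        rcases lt_or_ge m (-((M - j : ℕ) : ℤ)) with h3 | h3
        · exact h1 m h3
        · have h4 : m = -((M - j : ℕ) : ℤ) := by omega
          rw [h4]
          exact h2
    have h5 := key (M - r) le_rfl
    rcases le_or_gt M r with h | h
    · refine GE_mono ?_ (fun m hm => hM m hm : a r ∈ GE k (-(M : ℤ)))
      omega
    · have h6 : M - (M - r) = r := by omega
      rwa [h6] at h5
  exact
    { inj := hγ
      pos := hγpos
      one := ha0
      coef := hcoef'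
      mul := by
        intro r r' hr hr'
        obtain ⟨b, hb, hbr⟩ := (hV _).mp (haV r (Nat.zero_le _) hr)
        obtain ⟨b', hb', hbr'⟩ := (hV _).mp (haV r' (Nat.zero_le _) hr')
        rw [hbr, hbr', ← map_mul, hAV, hV]
        exact ⟨_, (Reg P₀).mul_mem hb hb', rfl⟩
      res0 := by
        intro r r' hr hr'
        obtain ⟨b, hb, hbr⟩ := (hV _).mp (haV r (Nat.zero_le _) hr)
        obtain ⟨b', hb', hbr'⟩ := (hV _).mp (haV r' (Nat.zero_le _) hr')
        rw [hbr, hbr']
        exact hres _ hb _ hb'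
      gen := hgen }

end

end NPT
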