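import Pool.Agent.helper50.NPT.Spec3

/-!
# Project NPT, row SPR: spreading out one-point data
-/

namespace NPT

open scoped Classical
open AN

noncomputable section

/-- a series with coefficients in the subring `R` -/
def SPR_up {K : Type} [Field K] (R : Subring K) (f : LS K) : LS R :=
  ofFun (fun m => if h : cf f m ∈ R then ⟨cf f m, h⟩ else 0) (exists_lb f).choose fun m hm => by
    have h0 : cf f m = 0 := (exists_lb f).choose_spec m hm
    by_cases h : cf f m ∈ R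
    · rw [dif_pos h]
      exact Subtype.ext h0
    · rw [dif_neg h]

theorem SPR_mp_up {K : Type} [Field K] (R : Subring K) (f : LS K) (h : ∀ m, cf f m ∈ R) :
    mp R.subtype (SPR_up R f) = f := by
  ext m
  rw [cf_mp]
  unfold SPR_up
  rw [cf_ofFun, dif_pos (h m)]
  rfl

theorem SPR_inj {K : Type} [Field K] (R : Subring K) : Function.Injective (mp R.subtype) :=
  mp_injective Subtype.val_injective

theorem SPR_GE {K : Type} [Field K] (R : Subring K) (f : LS R) (m : ℤ) (h : mp R.subtype f ∈ GE K m) :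
    f ∈ GE R m := by
  intro k hk
  have h1 := h k hk
  rw [cf_mp] at h1
  exact Subtype.ext h1

theorem SPR_cf {K : Type} [Field K] (R : Subring K) (f : LS R) (m : ℤ) (h : cf (mp R.subtype f) m = 1) :
    cf f m = 1 := by
  rw [cf_mp] at h
  exact Subtype.ext h

theorem SPR_liftA {K : Type} [Field K] {g : ℕ} (γ : Fin g → ℕ) (v : ℕ → LS K) (f : LS K) (hf : f ∈ AA γ v) :
    ∃ T : Finset K, ∀ R : Subring K, (∀ r m, cf (v r) m ∈ R) → (∀ x ∈ T, x ∈ R) →
      ∃ F ∈ AA γ (fun r => SPR_up R (v r)), mp R.subtype F = f := by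
  unfold AA at hf
  induction hf using Submodule.span_induction with
  | mem x hx =>
    obtain ⟨r, hr, rfl⟩ := hx
    refine ⟨∅, fun R hR _ => ⟨SPR_up R (v r), Submodule.subset_span ⟨r, hr, rfl⟩, SPR_mp_up R _ (hR r)⟩⟩
  | zero =>
    exact ⟨∅, fun R _ _ => ⟨0, Submodule.zero_mem _, map_zero _⟩⟩
  | add x y _ _ h1 h2 =>
    obtain ⟨T1, h1⟩ := h1
    obtain ⟨T2, h2⟩ := h2
    refine ⟨T1 ∪ T2, fun R hR hT => ?_⟩
    obtain ⟨F1, hF1, e1⟩ := h1 R hR (fun x hx => hT x (Finset.mem_union_left _ hx))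
    obtain ⟨F2, hF2, e2⟩ := h2 R hR (fun x hx => hT x (Finset.mem_union_right _ hx))
    exact ⟨F1 + F2, Submodule.add_mem _ hF1 hF2, by rw [map_add, e1, e2]⟩
  | smul c x _ h1 =>
    obtain ⟨T1, h1⟩ := h1
    refine ⟨insert c T1, fun R hR hT => ?_⟩
    obtain ⟨F1, hF1, e1⟩ := h1 R hR (fun x hx => hT x (Finset.mem_insert_of_mem hx))
    refine ⟨(⟨c, hT c (Finset.mem_insert_self _ _)⟩ : R) • F1, Submodule.smul_mem _ _ hF1, ?_⟩
    rw [mp_smul, e1]
    rfl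

theorem SPR_liftO {K : Type} [Field K] {g : ℕ} (γ : Fin g → ℕ) (v : ℕ → LS K) (f : LS K) (hf : f ∈ OmA γ v) :
    ∃ T : Finset K, ∀ R : Subring K, (∀ r m, cf (v r) m ∈ R) → (∀ x ∈ T, x ∈ R) →
      ∃ F ∈ OmA γ (fun r => SPR_up R (v r)), mp R.subtype F = f := by
  unfold OmA at hf
  induction hf using Submodule.span_induction with
  | mem x hx =>
    obtain ⟨f, hf, h, hh, rfl⟩ := hx
    obtain ⟨T1, h1⟩ := SPR_liftA γ v f hf
    obtain ⟨T2, h2⟩ := SPR_liftA γ v h hh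
    refine ⟨T1 ∪ T2, fun R hR hT => ?_⟩
    obtain ⟨F1, hF1, e1⟩ := h1 R hR (fun x hx => hT x (Finset.mem_union_left _ hx))
    obtain ⟨F2, hF2, e2⟩ := h2 R hR (fun x hx => hT x (Finset.mem_union_right _ hx))
    refine ⟨F1 * dd F2, Submodule.subset_span ⟨F1, hF1, F2, hF2, rfl⟩, ?_⟩
    rw [map_mul, ← dd_mp, e1, e2]
  | zero =>
    exact ⟨∅, fun R _ _ => ⟨0, Submodule.zero_mem _, map_zero _⟩⟩
  | add x y _ _ h1 h2 =>
    obtain ⟨T1, h1⟩ := h1
    obtain ⟨T2, h2⟩ := h2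
    refine ⟨T1 ∪ T2, fun R hR hT => ?_⟩
    obtain ⟨F1, hF1, e1⟩ := h1 R hR (fun x hx => hT x (Finset.mem_union_left _ hx))
    obtain ⟨F2, hF2, e2⟩ := h2 R hR (fun x hx => hT x (Finset.mem_union_right _ hx))
    exact ⟨F1 + F2, Submodule.add_mem _ hF1 hF2, by rw [map_add, e1, e2]⟩
  | smul c x _ h1 =>
    obtain ⟨T1, h1⟩ := h1
    refine ⟨insert c T1, fun R hR hT => ?_⟩
    obtain ⟨F1, hF1, e1⟩ := h1 R hR (fun x hx => hT x (Finset.mem_insert_of_mem hx))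
    refine ⟨(⟨c, hT c (Finset.mem_insert_self _ _)⟩ : R) • F1, Submodule.smul_mem _ _ hF1, ?_⟩
    rw [mp_smul, e1]
    rfl

/-- `mp` maps `AA γ V` into `AA γ v` -/
theorem SPR_mpA {K : Type} [Field K] {g : ℕ} (γ : Fin g → ℕ) (v : ℕ → LS K) (R : Subring K)
    (hR : ∀ r m, cf (v r) m ∈ R) (F : LS R) (hF : F ∈ AA γ (fun r => SPR_up R (v r))) :
    mp R.subtype F ∈ AA γ v := by
  unfold AA at hF
  induction hF using Submodule.span_induction with
  | mem x hx =>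
    obtain ⟨r, hr, rfl⟩ := hx
    dsimp only
    rw [SPR_mp_up R _ (hR r)]
    exact Submodule.subset_span ⟨r, hr, rfl⟩
  | zero => rw [map_zero]; exact Submodule.zero_mem _
  | add x y _ _ h1 h2 => rw [map_add]; exact Submodule.add_mem _ h1 h2
  | smul c x _ h1 => rw [mp_smul]; exact Submodule.smul_mem _ _ h1

theorem SPR_mp_ech {K : Type} [Field K] {g : ℕ} (γ : Fin g → ℕ) (v : ℕ → LS K) (R : Subring K)
    (hR : ∀ r m, cf (v r) m ∈ R) (r : ℕ) :
    mp R.subtype (NPS.ech γ (fun r => SPR_up R (v r)) r) = NPS.ech γ v r := by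
  induction r using Nat.strong_induction_on with
  | _ r ih =>
    rw [NPS.ech_eq, NPS.ech_eq γ v r, map_sub, map_sum, SPR_mp_up R _ (hR r)]
    congr 1
    refine Finset.sum_congr rfl fun r' _ => ?_
    split_ifs with h
    · exact map_zero _
    · rw [mp_smul, ih r' r'.2]
      congr 1
      rw [← cf_mp, SPR_mp_up R _ (hR r)]

/-- powers of `x` -/
theorem SPR_xpow {K : Type} [CommRing K] (n q : ℕ) : (mono (-(n : ℤ)) (1 : K)) ^ q = mono (-((n * q : ℕ) : ℤ)) 1 := by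
  induction q with
  | zero =>
    rw [pow_zero, Nat.mul_zero, Nat.cast_zero, neg_zero, ← C_eq_mono, map_one]
  | succ q ih =>
    rw [pow_succ, ih, mono_mul_mono, one_mul]
    congr 1
    push_cast
    ring

/-- the family `x^q u_i` -/
def SPR_v {K : Type} [Field K] (a : ℕ → LS K) (n : ℕ) (hn : 0 < n) (μ : Fin n → ℕ) (r : ℕ) : LS K :=
  mono (-((n * ((r - μ ⟨r % n, Nat.mod_lt _ hn⟩) / n) : ℕ) : ℤ)) 1 * a (μ ⟨r % n, Nat.mod_lt _ hn⟩)

theorem SPR_v_eq {K : Type} [Field K] (a : ℕ → LS K) (n : ℕ) (hn : 0 < n) (μ : Fin n → ℕ)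
    (hμ : ∀ i, μ i % n = i) (i : Fin n) (q : ℕ) :
    SPR_v a n hn μ (μ i + n * q) = mono (-((n * q : ℕ) : ℤ)) 1 * a (μ i) := by
  have h1 : (μ i + n * q) % n = i := by
    rw [Nat.add_mul_mod_self_left, hμ i]
  have h2 : (⟨(μ i + n * q) % n, Nat.mod_lt _ hn⟩ : Fin n) = i := Fin.ext h1
  unfold SPR_v
  rw [h2]
  have h3 : (μ i + n * q - μ i) / n = q := by
    rw [Nat.add_sub_cancel_left]
    exact Nat.mul_div_cancel_left q hn
  rw [h3]

theorem SPR_omGE {K : Type} [Field K] {g : ℕ} (γ : Fin g → ℕ) (a : ℕ → LS K)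
    (hGE : ∀ r : ℕ, ¬ Gp γ r → a r ∈ GE K (-(r : ℤ))) (m : ℤ) (hm : m ≤ -2 ∨ ∃ i, m = (γ i : ℤ) - 1) :
    om γ a m ∈ GE K m ∧ cf (om γ a m) m = 1 := by
  refine ⟨?_, ?_⟩
  · intro k hk
    unfold om
    rw [cf_ofFun, if_neg (by omega)]
    split_ifs with h
    · rw [hGE _ h.2 _ ?_, neg_zero]
      have := h.1
      omega
    · rfl
  · unfold om
    rw [cf_ofFun, if_pos rfl]

theorem SPR (hKA : KA_stmt) (hKB : KB_stmt) (hAPE : APE_stmt) (hEIG : EIG_stmt) : SPR_stmt := by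
  intro K _ g γ a ha hGE n hn hn0 hx
  obtain ⟨μ, c, hμ, hμG, hN, hmul⟩ := hAPE K g γ a ha hGE n hn hx
  obtain ⟨S1, hS1⟩ := hEIG K g γ a ha hGE n hn hn0 μ c hμ hμG hN hmul
  obtain ⟨-, -, hKA3⟩ := hKA K g γ a ha
  obtain ⟨kB1, kB2, -, kB4, kB5, -, -, -⟩ := hKB K g γ a ha
  obtain ⟨v, hvdef⟩ : ∃ v, v = SPR_v a n hn μ := ⟨_, rfl⟩
  have hv_eq : ∀ (i : Fin n) (q : ℕ), v (μ i + n * q) = mono (-((n * q : ℕ) : ℤ)) 1 * a (μ i) := by
    intro i q
    rw [hvdef]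
    exact SPR_v_eq a n hn μ hμ i q
  have hvμ : ∀ i, v (μ i) = a (μ i) := by
    intro i
    have h := hv_eq i 0
    rwa [Nat.mul_zero, Nat.add_zero, Nat.cast_zero, neg_zero, ← C_eq_mono, map_one, one_mul] at h
  have hadd : ∀ r, ¬ Gp γ r → ¬ Gp γ (r + n) := by
    intro r hr
    obtain ⟨i, q, h⟩ := (hN r).mp hr
    exact (hN _).mpr ⟨i, q + 1, by rw [h]; ring⟩
  have h0G : ¬ Gp γ 0 := by
    rintro ⟨i, hi⟩
    have := ha.pos i
    omega
  have hv0 : v 0 = 1 := by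
    obtain ⟨i, q, h⟩ := (hN 0).mp h0G
    have h1 : μ i = 0 := by omega
    have h2 := hvμ i
    rw [h1] at h2
    rw [h2, ha.one]
  have hvG : ∀ r, ¬ Gp γ r → v r ∈ GE K (-(r : ℤ)) ∧ cf (v r) (-(r : ℤ)) = 1 := by
    intro r hr
    obtain ⟨i, q, rfl⟩ := (hN r).mp hr
    have e : (-((μ i + n * q : ℕ) : ℤ)) = -((n * q : ℕ) : ℤ) + -((μ i : ℕ) : ℤ) := by
      push_cast
      ring
    rw [hv_eq, e]
    refine ⟨GE_mul (mono_mem_GE _ _) (hGE _ (hμG i)), ?_⟩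
    rw [cf_mul_lead (mono_mem_GE _ _) (hGE _ (hμG i)), cf_mono, if_pos rfl, one_mul,
      ha.coef _ _ (hμG i) (hμG i), if_pos rfl]
  have hxq : ∀ q : ℕ, (mono (-(n : ℤ)) (1 : K)) ^ q ∈ AA γ a := by
    intro q
    induction q with
    | zero =>
      rw [pow_zero, ← map_one LS.C]
      exact kB2 1
    | succ q ih =>
      rw [pow_succ]
      exact kB4 _ ih _ hx
  have hvA : ∀ r, ¬ Gp γ r → v r ∈ AA γ a := by
    intro r hr
    obtain ⟨i, q, rfl⟩ := (hN r).mp hr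
    rw [hv_eq, ← SPR_xpow]
    exact kB4 _ (hxq q) _ (kB1 _ (hμG i))
  have hvx : ∀ r, ¬ Gp γ r → mono (-(n : ℤ)) 1 * v r = v (r + n) := by
    intro r hr
    obtain ⟨i, q, rfl⟩ := (hN r).mp hr
    have e : μ i + n * q + n = μ i + n * (q + 1) := by ring
    rw [e, hv_eq, hv_eq, ← mul_assoc, mono_mul_mono, one_mul]
    congr 2
    push_cast
    ring
  have hle : AA γ v ≤ AA γ a := by
    unfold AA
    refine Submodule.span_le.mpr ?_
    rintro x ⟨r, hr, rfl⟩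
    exact hvA r hr
  have hech : ∀ r, ¬ Gp γ r → NPS.ech γ v r = a r := by
    intro r hr
    have h1 : NPS.ech γ v r ∈ AA γ v := by
      rw [← NPS.ech_span γ v]
      exact Submodule.subset_span ⟨r, hr, rfl⟩
    have h2 : NPS.ech γ v r - a r ∈ AA γ a := Submodule.sub_mem _ (hle h1) (kB1 r hr)
    have h3 : ∀ r' : ℕ, ¬ Gp γ r' → cf (NPS.ech γ v r - a r) (-(r' : ℤ)) = 0 := by
      intro r' hr'
      rw [cf_sub, NPS.ech_coef γ v hvG r r' hr hr', ha.coef r r' hr hr', sub_self]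
    have h4 := hKA3 _ h2 0 (fun r' _ hr' => h3 r' hr')
    rw [Finset.sum_eq_zero] at h4
    · exact sub_eq_zero.mp h4
    · intro r' _
      split_ifs with h
      · rfl
      · rw [h3 r' h, zero_smul]
  have hAA : AA γ v = AA γ a := by
    rw [← NPS.ech_span γ v]
    unfold AA
    congr 1
    ext x
    constructor
    · rintro ⟨r, hr, rfl⟩
      exact ⟨r, hr, hech r hr⟩
    · rintro ⟨r, hr, rfl⟩
      exact ⟨r, hr, (hech r hr).symm⟩
  have hOO : OmA γ v = OmA γ a := by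
    unfold OmA
    rw [hAA]
  -- finitely many lifts
  have hT0 : ∀ m : ℤ, ∃ T : Finset K, (m ≤ -2 ∨ ∃ i, m = (γ i : ℤ) - 1) →
      ∀ R : Subring K, (∀ r m, cf (v r) m ∈ R) → (∀ x ∈ T, x ∈ R) →
      ∃ F ∈ OmA γ (fun r => SPR_up R (v r)), mp R.subtype F = om γ a m := by
    intro m
    by_cases hm : m ≤ -2 ∨ ∃ i, m = (γ i : ℤ) - 1
    · obtain ⟨T, hT⟩ := SPR_liftO γ v (om γ a m) (by rw [hOO]; exact ha.gen m hm)
      exact ⟨T, fun _ => hT⟩
    · exact ⟨∅, fun h => absurd h hm⟩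
  choose T hT using hT0
  obtain ⟨N0, hN0⟩ : ∃ N0 : ℕ, ∀ r, N0 ≤ r → ¬ Gp γ r := by
    refine ⟨∑ i, γ i + 1, fun r hr => ?_⟩
    rintro ⟨i, rfl⟩
    have := Finset.single_le_sum (f := γ) (fun j _ => Nat.zero_le _) (Finset.mem_univ i)
    omega
  let S2 : Finset K := Finset.univ.biUnion fun i => Finset.univ.biUnion fun j => Finset.univ.biUnion fun k =>
    (Finset.range ((c i j k).natDegree + 1)).image (c i j k).coeff
  let S3 : Finset K := (Finset.Icc (-((N0 + n + 1 : ℕ) : ℤ)) (-2)).biUnion T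
  let S4 : Finset K := Finset.univ.biUnion fun i => T ((γ i : ℤ) - 1)
  refine ⟨S1 ∪ S2 ∪ S3 ∪ S4 ∪ {((n : K))⁻¹}, fun R hR => ?_⟩
  have hR1 : ∀ i m, cf (a (μ i)) m ∈ R := hS1 R (fun x hx => hR x (by
    simp only [Finset.mem_union]
    tauto))
  have hR2 : ∀ i j k t, t ∈ Finset.range ((c i j k).natDegree + 1) → (c i j k).coeff t ∈ R := by
    intro i j k t ht
    have h : (c i j k).coeff t ∈ S2 := by
      refine Finset.mem_biUnion.mpr ⟨i, Finset.mem_univ _, ?_⟩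
      refine Finset.mem_biUnion.mpr ⟨j, Finset.mem_univ _, ?_⟩
      refine Finset.mem_biUnion.mpr ⟨k, Finset.mem_univ _, ?_⟩
      exact Finset.mem_image_of_mem _ ht
    refine hR _ ?_
    simp only [Finset.mem_union]
    tauto
  have hR3 : ∀ m : ℤ, -((N0 + n + 1 : ℕ) : ℤ) ≤ m → m ≤ -2 → ∀ x ∈ T m, x ∈ R := by
    intro m hm1 hm2 x hx
    have h : x ∈ S3 := Finset.mem_biUnion.mpr ⟨m, Finset.mem_Icc.mpr ⟨hm1, hm2⟩, hx⟩
    refine hR _ ?_
    simp only [Finset.mem_union]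
    tauto
  have hR4 : ∀ i, ∀ x ∈ T ((γ i : ℤ) - 1), x ∈ R := by
    intro i x hx
    have h : x ∈ S4 := Finset.mem_biUnion.mpr ⟨i, Finset.mem_univ _, hx⟩
    refine hR _ ?_
    simp only [Finset.mem_union]
    tauto
  have hR5 : ((n : K))⁻¹ ∈ R := hR _ (by
    simp only [Finset.mem_union, Finset.mem_singleton]
    tauto)
  have hRv : ∀ r m, cf (v r) m ∈ R := by
    intro r m
    rw [hvdef]
    unfold SPR_v
    rw [cf_mono_mul, one_mul]
    exact hR1 _ _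
  obtain ⟨V, hVdef⟩ : ∃ V : ℕ → LS R, V = fun r => SPR_up R (v r) := ⟨_, rfl⟩
  have hV : ∀ r, mp R.subtype (V r) = v r := by
    intro r
    rw [hVdef]
    exact SPR_mp_up R _ (hRv r)
  obtain ⟨X, hXdef⟩ : ∃ X : LS R, X = mono (-(n : ℤ)) 1 := ⟨_, rfl⟩
  have hX : mp R.subtype X = mono (-(n : ℤ)) 1 := by
    rw [hXdef, mp_mono, map_one]
  have hVx : ∀ r, ¬ Gp γ r → X * V r = V (r + n) := by
    intro r hr
    apply SPR_inj R
    rw [map_mul, hX, hV, hV, hvx r hr]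
  have hV0 : V 0 = 1 := by
    apply SPR_inj R
    rw [hV, hv0, map_one]
  have hVG : ∀ r, ¬ Gp γ r → V r ∈ GE R (-(r : ℤ)) ∧ cf (V r) (-(r : ℤ)) = 1 := by
    intro r hr
    refine ⟨SPR_GE R _ _ ?_, SPR_cf R _ _ ?_⟩
    · rw [hV]; exact (hvG r hr).1
    · rw [hV]; exact (hvG r hr).2
  have hVA : ∀ r, ¬ Gp γ r → V r ∈ AA γ V := fun r hr => Submodule.subset_span ⟨r, hr, rfl⟩
  have hXA : ∀ F ∈ AA γ V, X * F ∈ AA γ V := by
    intro F hF
    unfold AA at hF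
    induction hF using Submodule.span_induction with
    | mem y hy =>
      obtain ⟨r, hr, rfl⟩ := hy
      rw [hVx r hr]
      exact hVA _ (hadd r hr)
    | zero => rw [mul_zero]; exact Submodule.zero_mem _
    | add y z _ _ h1 h2 => rw [mul_add]; exact Submodule.add_mem _ h1 h2
    | smul c y _ h1 => rw [mul_smul_comm]; exact Submodule.smul_mem _ _ h1
  have hXq : ∀ q : ℕ, ∀ F ∈ AA γ V, X ^ q * F ∈ AA γ V := by
    intro q
    induction q with
    | zero => intro F hF; rwa [pow_zero, one_mul]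
    | succ q ih =>
      intro F hF
      rw [pow_succ, mul_assoc]
      exact ih _ (hXA F hF)
  have hVq : ∀ (i : Fin n) (q : ℕ), V (μ i + n * q) = X ^ q * V (μ i) := by
    intro i q
    apply SPR_inj R
    rw [map_mul, map_pow, hX, hV, hV, hvμ, SPR_xpow, hv_eq]
  have hUU : ∀ i j, V (μ i) * V (μ j) ∈ AA γ V := by
    intro i j
    have e : V (μ i) * V (μ j) = ∑ k, ∑ t : Finset.range ((c i j k).natDegree + 1),
        (⟨(c i j k).coeff t, hR2 i j k t t.2⟩ : R) • V (μ k + n * (t : ℕ)) := by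
      apply SPR_inj R
      rw [map_mul, hV, hV, hvμ, hvμ, hmul, map_sum]
      refine Finset.sum_congr rfl fun k _ => ?_
      rw [map_sum, Polynomial.eval₂_eq_sum_range, Finset.sum_mul, ← Finset.sum_coe_sort]
      refine Finset.sum_congr rfl fun t _ => ?_
      rw [mp_smul, hV, hv_eq, SPR_xpow, mul_assoc, C_mul]
      rfl
    rw [e]
    refine Submodule.sum_mem _ fun k _ => Submodule.sum_mem _ fun t _ => Submodule.smul_mem _ _ (hVA _ ?_)
    exact (hN _).mpr ⟨k, t, rfl⟩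
  have hmulV : ∀ r r', ¬ Gp γ r → ¬ Gp γ r' → V r * V r' ∈ AA γ V := by
    intro r r' hr hr'
    obtain ⟨i, q, rfl⟩ := (hN r).mp hr
    obtain ⟨j, q', rfl⟩ := (hN r').mp hr'
    have e : V (μ i + n * q) * V (μ j + n * q') = X ^ (q + q') * (V (μ i) * V (μ j)) := by
      rw [hVq, hVq]
      ring
    rw [e]
    exact hXq _ _ (hUU i j)
  have hmpA : ∀ F ∈ AA γ V, mp R.subtype F ∈ AA γ a := by
    intro F hF
    rw [hVdef] at hF
    rw [← hAA]
    exact SPR_mpA γ v R hRv F hF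
  have hres : ∀ r, ¬ Gp γ r → ∀ w ∈ OmA γ V, res (V r * w) = 0 := by
    intro r hr w hw
    unfold OmA at hw
    induction hw using Submodule.span_induction with
    | mem y hy =>
      obtain ⟨f, hf, h, hh, rfl⟩ := hy
      have e : R.subtype (res (V r * (f * dd h))) = 0 := by
        rw [← res_mp, map_mul, map_mul, ← dd_mp, ← mul_assoc]
        exact kB5 _ (kB4 _ (hmpA _ (hVA r hr)) _ (hmpA f hf)) _ (hmpA h hh)
      exact Subtype.ext e
    | zero => rw [mul_zero]; rfl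
    | add y z _ _ h1 h2 => rw [mul_add, res_add, h1, h2, add_zero]
    | smul c y _ h1 => rw [mul_smul_comm, res_smul, h1, mul_zero]
  have h1A : (1 : LS R) ∈ AA γ V := by
    rw [← hV0]
    exact hVA 0 h0G
  have hdd : ∀ r, ¬ Gp γ r → dd (V r) ∈ OmA γ V := by
    intro r hr
    exact Submodule.subset_span ⟨1, h1A, V r, hVA r hr, (one_mul _).symm⟩
  have hXAA : X ∈ AA γ V := by
    have := hXA 1 h1A
    rwa [mul_one] at this
  have hnu : IsUnit ((n : ℤ) : R) := by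
    refine IsUnit.of_mul_eq_one ⟨((n : K))⁻¹, hR5⟩ ?_
    apply Subtype.ext
    show (((n : ℤ) : R) : K) * ((n : K))⁻¹ = 1
    rw [Subring.coe_intCast]
    push_cast
    exact mul_inv_cancel₀ hn0
  have hW : ∀ m : ℤ, (m ≤ -2 ∨ ∃ i, m = (γ i : ℤ) - 1) → ∃ w ∈ OmA γ V, w ∈ GE R m ∧ IsUnit (cf w m) := by
    intro m hm
    by_cases hbig : m < -((N0 + n + 1 : ℕ) : ℤ)
    · obtain ⟨r, hr⟩ : ∃ r : ℕ, m = -(r : ℤ) + (-(n : ℤ) - 1) := ⟨(-m - n - 1).toNat, by omega⟩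
      have hrG : ¬ Gp γ r := hN0 r (by omega)
      refine ⟨V r * dd X, Submodule.subset_span ⟨V r, hVA r hrG, X, hXAA, rfl⟩, ?_, ?_⟩
      · rw [hr, hXdef, dd_mono]
        exact GE_mul (hVG r hrG).1 (mono_mem_GE _ _)
      · rw [hr, hXdef, dd_mono, cf_mul_lead (hVG r hrG).1 (mono_mem_GE _ _), (hVG r hrG).2, cf_mono,
          if_pos rfl, one_mul, mul_one, Int.cast_neg]
        exact hnu.neg
    · obtain ⟨w, hw, hw2⟩ : ∃ w ∈ OmA γ V, mp R.subtype w = om γ a m := by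
        rw [hVdef]
        rcases hm with h | ⟨i, rfl⟩
        · exact hT m (Or.inl h) R hRv (hR3 m (by omega) h)
        · exact hT _ (Or.inr ⟨i, rfl⟩) R hRv (hR4 i)
      obtain ⟨h1, h2⟩ := SPR_omGE γ a hGE m hm
      rw [← hw2] at h1 h2
      refine ⟨w, hw, SPR_GE R _ _ h1, ?_⟩
      rw [SPR_cf R _ _ h2]
      exact isUnit_one
  obtain ⟨hK, -⟩ := NPS.isK_of γ V ha.inj ha.pos hV0 hVG hmulV (OmA γ V) le_rfl hW hres hdd
  refine ⟨NPS.ech γ V, hK, fun r hr => ?_⟩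
  rw [hVdef, SPR_mp_ech γ v R hRv r, hech r hr]

end

end NPT
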